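import Mathlib

set_option autoImplicit false

/-!
Weak limits along an ultrafilter in a Hilbert space, and the quadratic variation of functions
`ℕ → H`.
-/

namespace Pool.Agent.TH321.HJ

open Filter Topology

open scoped RealInnerProductSpace

/-- the nonprincipal ultrafilter used for all limits -/
noncomputable abbrev U : Ultrafilter ℕ := Filter.hyperfilter ℕ

lemma eventually_gt (a : ℕ) : ∀ᶠ m in (U : Filter ℕ), a < m :=
  Nat.hyperfilter_le_atTop (Filter.eventually_gt_atTop a)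

section

variable {H : Type} [NormedAddCommGroup H] [InnerProductSpace ℝ H]

/-- weak convergence along the ultrafilter -/
def WT (w : ℕ → H) (w0 : H) : Prop := ∀ h : H, Tendsto (fun m => ⟪h, w m⟫) U (𝓝 ⟪h, w0⟫)

lemma WT.sub {w w' : ℕ → H} {a a' : H} (h : WT w a) (h' : WT w' a') :
    WT (fun m => w m - w' m) (a - a') := fun x => by
  simp only [inner_sub_right]
  exact (h x).sub (h' x)

lemma WT.const (a : H) : WT (fun _ => a) a := fun _ => tendsto_const_nhds

lemma WT.sub_self {w : ℕ → H} {a : H} (h : WT w a) : WT (fun m => w m - a) 0 := by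
  have := h.sub (WT.const a)
  rwa [_root_.sub_self] at this

lemma WT.inner_small {w : ℕ → H} (h : WT w 0) (x : H) {ε : ℝ} (hε : 0 < ε) :
    ∀ᶠ m in (U : Filter ℕ), |⟪x, w m⟫| < ε := by
  have h1 := h x
  rw [inner_zero_right] at h1
  have h2 := h1.abs
  rw [abs_zero] at h2
  exact h2.eventually (gt_mem_nhds hε)

lemma exists_WT [CompleteSpace H] (w : ℕ → H) (C : ℝ) (hw : ∀ m, ‖w m‖ ≤ C) : ∃ w0, WT w w0 := by
  have hK := WeakDual.isCompact_closedBall (𝕜 := ℝ) (E := H) 0 C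
  let J : ℕ → WeakDual ℝ H := fun m => StrongDual.toWeakDual (InnerProductSpace.toDual ℝ H (w m))
  obtain ⟨x, -, hx⟩ := hK.ultrafilter_le_nhds (U.map J) (by
    rw [Ultrafilter.coe_map, Filter.le_principal_iff]
    refine Filter.mem_map.2 (Filter.univ_mem' fun m => ?_)
    refine mem_closedBall_zero_iff.2 ?_
    show ‖InnerProductSpace.toDual ℝ H (w m)‖ ≤ C
    rw [LinearIsometryEquiv.norm_map]
    exact hw m)
  have h1 : Tendsto J U (𝓝 x) := hx
  refine ⟨(InnerProductSpace.toDual ℝ H).symm (WeakDual.toStrongDual x), fun h => ?_⟩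
  have h2 : Tendsto (fun m => J m h) U (𝓝 (x h)) :=
    ((WeakDual.eval_continuous h).tendsto x).comp h1
  have h3 : ⟪h, (InnerProductSpace.toDual ℝ H).symm (WeakDual.toStrongDual x)⟫ = x h := by
    rw [real_inner_comm, InnerProductSpace.toDual_symm_apply]
    rfl
  rw [h3]
  refine h2.congr fun m => ?_
  show InnerProductSpace.toDual ℝ H (w m) h = _
  rw [InnerProductSpace.toDual_apply_apply, real_inner_comm]

open Classical in
/-- the weak limit -/
noncomputable def wl (w : ℕ → H) : H := if h : ∃ w0, WT w w0 then h.choose else 0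

lemma wl_spec [CompleteSpace H] (w : ℕ → H) (C : ℝ) (hw : ∀ m, ‖w m‖ ≤ C) : WT w (wl w) := by
  unfold wl
  rw [dif_pos (exists_WT w C hw)]
  exact (exists_WT w C hw).choose_spec

lemma norm_sq_le_of_WT {w : ℕ → H} {a : H} (h : WT w a) {c : ℝ}
    (hc : ∀ᶠ m in (U : Filter ℕ), ‖w m‖ ^ 2 ≤ c) : ‖a‖ ^ 2 ≤ c := by
  have h1 := h a
  have h2 : ⟪a, a⟫ ≤ (‖a‖ ^ 2 + c) / 2 := by
    refine le_of_tendsto h1 ?_
    filter_upwards [hc] with m hm
    have h3 : ⟪a, w m⟫ ≤ ‖a‖ * ‖w m‖ := real_inner_le_norm _ _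
    nlinarith [sq_nonneg (‖a‖ - ‖w m‖)]
  rw [real_inner_self_eq_norm_sq] at h2
  linarith

lemma norm_le_of_WT {w : ℕ → H} {a : H} (h : WT w a) {c : ℝ} (hc0 : 0 ≤ c)
    (hc : ∀ᶠ m in (U : Filter ℕ), ‖w m‖ ≤ c) : ‖a‖ ≤ c := by
  have h1 := norm_sq_le_of_WT h (c := c ^ 2) (by
    filter_upwards [hc] with m hm
    exact pow_le_pow_left₀ (norm_nonneg _) hm 2)
  exact (sq_le_sq₀ (norm_nonneg _) hc0).1 h1

end

/-! ### quadratic variation -/

section

variable {H : Type} [NormedAddCommGroup H]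

/-- the sum of the squared increments -/
def var (D : ℕ → H) (p : ℕ → ℕ) (n : ℕ) : ℝ := ∑ i ∈ Finset.range n, ‖D (p (i + 1)) - D (p i)‖ ^ 2

/-- the quadratic variation is at most `c` -/
def VB (D : ℕ → H) (c : ℝ) : Prop := ∀ p : ℕ → ℕ, Monotone p → ∀ n, var D p n ≤ c

lemma var_nonneg (D : ℕ → H) (p : ℕ → ℕ) (n : ℕ) : 0 ≤ var D p n :=
  Finset.sum_nonneg fun _ _ => sq_nonneg _

lemma VB.nonneg {D : ℕ → H} {c : ℝ} (h : VB D c) : 0 ≤ c := by
  have := h id monotone_id 0
  simpa [var] using this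

lemma VB.mono {D : ℕ → H} {c c' : ℝ} (h : VB D c) (hc : c ≤ c') : VB D c' :=
  fun p hp n => (h p hp n).trans hc

lemma VB.sq_le_aux {D : ℕ → H} {c : ℝ} (h : VB D c) (s t : ℕ) (hst : s ≤ t) :
    ‖D t - D s‖ ^ 2 ≤ c := by
  have h1 := h (fun i => if i = 0 then s else t) (by
    intro i j hij
    dsimp only
    split_ifs <;> omega) 1
  simpa [var] using h1

lemma VB.sq_le {D : ℕ → H} {c : ℝ} (h : VB D c) (s t : ℕ) : ‖D s - D t‖ ^ 2 ≤ c := by
  rcases le_total s t with hst | hst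
  · rw [norm_sub_rev]
    exact h.sq_le_aux s t hst
  · exact h.sq_le_aux t s hst

lemma VB.norm_sq_le {D : ℕ → H} {c : ℝ} (h : VB D c) (h0 : D 0 = 0) (t : ℕ) : ‖D t‖ ^ 2 ≤ c := by
  have := h.sq_le t 0
  rwa [h0, sub_zero] at this

/-- tails have small variation -/
lemma VB.tail {D : ℕ → H} {c : ℝ} (h : VB D c) {η : ℝ} (hη : 0 < η) :
    ∃ T : ℕ, ∀ q : ℕ → ℕ, Monotone q → T ≤ q 0 → ∀ n, var D q n ≤ η := by
  set S : Set ℝ := {x | ∃ p : ℕ → ℕ, Monotone p ∧ ∃ n, x = var D p n} with hS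
  have hne : S.Nonempty := ⟨_, id, monotone_id, 0, rfl⟩
  have hbd : BddAbove S := ⟨c, by rintro _ ⟨p, hp, n, rfl⟩; exact h p hp n⟩
  obtain ⟨_, ⟨p, hp, n, rfl⟩, hx⟩ := exists_lt_of_lt_csSup hne (sub_lt_self (sSup S) hη)
  refine ⟨p n, fun q hq hpq l => ?_⟩
  let r : ℕ → ℕ := fun i => if i ≤ n then p i else q (i - (n + 1))
  have hr : Monotone r := by
    intro i j hij
    dsimp only [r]
    split_ifs with h1 h2
    · exact hp hij
    · exact (hp h1).trans (hpq.trans (hq (Nat.zero_le _)))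
    · omega
    · exact hq (by omega)
  have h1 : var D r (n + 1 + l) = var D p n + ‖D (q 0) - D (p n)‖ ^ 2 + var D q l := by
    unfold var
    rw [Finset.sum_range_add, Finset.sum_range_succ]
    congr 1
    · congr 1
      · refine Finset.sum_congr rfl fun i hi => ?_
        have hi' := Finset.mem_range.1 hi
        dsimp only [r]
        rw [if_pos (by omega), if_pos (by omega)]
      · dsimp only [r]
        rw [if_neg (by omega), if_pos le_rfl, Nat.sub_self]
    · refine Finset.sum_congr rfl fun i _ => ?_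
      dsimp only [r]
      rw [if_neg (by omega), if_neg (by omega), show n + 1 + i + 1 - (n + 1) = i + 1 by omega,
        show n + 1 + i - (n + 1) = i by omega]
  have h2 : var D r (n + 1 + l) ≤ sSup S := le_csSup hbd ⟨r, hr, _, rfl⟩
  have h3 := sq_nonneg ‖D (q 0) - D (p n)‖
  linarith

lemma VB.exists_lim [CompleteSpace H] {D : ℕ → H} {c : ℝ} (h : VB D c) :
    ∃ a, Tendsto D atTop (𝓝 a) := by
  refine cauchySeq_tendsto_of_complete (Metric.cauchySeq_iff.2 fun ε hε => ?_)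
  obtain ⟨T, hT⟩ := h.tail (show 0 < ε ^ 2 / 2 by positivity)
  have key : ∀ s t, T ≤ s → s ≤ t → ‖D t - D s‖ < ε := by
    intro s t hs hst
    have h1 := hT (fun i => if i = 0 then s else t) (by
      intro i j hij
      dsimp only
      split_ifs <;> omega) (by simpa using hs) 1
    have h2 : ‖D t - D s‖ ^ 2 ≤ ε ^ 2 / 2 := by simpa [var] using h1
    nlinarith [norm_nonneg (D t - D s)]
  refine ⟨T, fun m hm n hn => ?_⟩
  rw [dist_eq_norm]
  rcases le_total m n with hmn | hmn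
  · rw [norm_sub_rev]
    exact key m n hm hmn
  · exact key n m hn hmn

end

section

variable {H : Type} [NormedAddCommGroup H] [InnerProductSpace ℝ H]

/-- the quadratic variation is lower semicontinuous for pointwise weak convergence -/
lemma VB_of_WT {D : ℕ → ℕ → H} {D0 : ℕ → H} (h : ∀ t, WT (fun m => D m t) (D0 t)) {c : ℝ}
    (hc : ∀ᶠ m in (U : Filter ℕ), VB (D m) c) : VB D0 c := by
  intro p hp n
  have h1 : Tendsto (fun m => ∑ i ∈ Finset.range n,
      ⟪D0 (p (i + 1)) - D0 (p i), D m (p (i + 1)) - D m (p i)⟫) U (𝓝 (∑ i ∈ Finset.range n,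
      ⟪D0 (p (i + 1)) - D0 (p i), D0 (p (i + 1)) - D0 (p i)⟫)) :=
    tendsto_finsetSum _ fun i _ => ((h (p (i + 1))).sub (h (p i))) _
  have h2 : ∑ i ∈ Finset.range n, ⟪D0 (p (i + 1)) - D0 (p i), D0 (p (i + 1)) - D0 (p i)⟫ =
      var D0 p n := by
    unfold var
    refine Finset.sum_congr rfl fun i _ => ?_
    rw [real_inner_self_eq_norm_sq]
  rw [h2] at h1
  have h3 : var D0 p n ≤ (var D0 p n + c) / 2 := by
    refine le_of_tendsto h1 ?_
    filter_upwards [hc] with m hm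
    have h4 := hm p hp n
    calc ∑ i ∈ Finset.range n, ⟪D0 (p (i + 1)) - D0 (p i), D m (p (i + 1)) - D m (p i)⟫
        ≤ ∑ i ∈ Finset.range n, (‖D0 (p (i + 1)) - D0 (p i)‖ ^ 2 / 2 +
          ‖D m (p (i + 1)) - D m (p i)‖ ^ 2 / 2) := by
          refine Finset.sum_le_sum fun i _ => ?_
          have h5 : ⟪D0 (p (i + 1)) - D0 (p i), D m (p (i + 1)) - D m (p i)⟫ ≤
            ‖D0 (p (i + 1)) - D0 (p i)‖ * ‖D m (p (i + 1)) - D m (p i)‖ := real_inner_le_norm _ _
          nlinarith [sq_nonneg (‖D0 (p (i + 1)) - D0 (p i)‖ - ‖D m (p (i + 1)) - D m (p i)‖)]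
      _ = var D0 p n / 2 + var (D m) p n / 2 := by
          rw [Finset.sum_add_distrib, ← Finset.sum_div, ← Finset.sum_div]
          rfl
      _ ≤ (var D0 p n + c) / 2 := by linarith
  linarith

end

end Pool.Agent.TH321.HJ
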