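import Mathlib
import Pool.Agent.TH321.HJ.Weak

set_option autoImplicit false

/-!
One-step estimates: adding a pointwise weakly null sequence of functions `ℕ → H`.
-/

namespace Pool.Agent.TH321.HJ

open Filter Topology

open scoped RealInnerProductSpace

variable {H : Type} [NormedAddCommGroup H] [InnerProductSpace ℝ H]

lemma step_hilb (v : H) {w : ℕ → H} {c : ℝ} (hw : WT w 0)
    (hc : ∀ᶠ m in (U : Filter ℕ), ‖w m‖ ≤ c) {ε : ℝ} (hε : 0 < ε) :
    ∀ᶠ m in (U : Filter ℕ), ‖v + w m‖ ^ 2 ≤ ‖v‖ ^ 2 + c ^ 2 + ε := by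
  filter_upwards [hc, hw.inner_small v (half_pos hε)] with m h1 h2
  rw [norm_add_sq_real]
  have h3 := (abs_lt.1 h2).2
  have h4 : ‖w m‖ ^ 2 ≤ c ^ 2 := pow_le_pow_left₀ (norm_nonneg _) h1 2
  linarith

lemma step_sup {D : ℕ → H} {a : H} (ha : Tendsto D atTop (𝓝 a)) {R B c : ℝ} (hR : ‖a‖ ≤ R)
    (hB : ∀ t, ‖D t‖ ^ 2 ≤ B) (hBR : (R + c + 1) ^ 2 ≤ B) {δ : ℕ → ℕ → H}
    (hδ : ∀ᶠ m in (U : Filter ℕ), ∀ t, ‖δ m t‖ ≤ c) (hw : ∀ t, WT (fun m => δ m t) 0)
    {ε : ℝ} (hε : 0 < ε) :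
    ∀ᶠ m in (U : Filter ℕ), ∀ t, ‖D t + δ m t‖ ^ 2 ≤ B + c ^ 2 + ε := by
  obtain ⟨T, hT⟩ := Metric.tendsto_atTop.1 ha 1 one_pos
  have h1 : ∀ᶠ m in (U : Filter ℕ), ∀ t ∈ Finset.range T, |⟪D t, δ m t⟫| < ε / 2 :=
    (Filter.eventually_all_finset _).2 fun t _ => (hw t).inner_small (D t) (half_pos hε)
  filter_upwards [hδ, h1] with m h2 h3 t
  have h4 : ‖δ m t‖ ^ 2 ≤ c ^ 2 := pow_le_pow_left₀ (norm_nonneg _) (h2 t) 2
  by_cases ht : t < T
  · rw [norm_add_sq_real]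
    have h5 := (abs_lt.1 (h3 t (Finset.mem_range.2 ht))).2
    have h6 := hB t
    linarith
  · have h5 := hT t (not_lt.1 ht)
    rw [dist_eq_norm] at h5
    have h6 : ‖D t + δ m t‖ ≤ R + c + 1 := by
      calc ‖D t + δ m t‖ ≤ ‖D t‖ + ‖δ m t‖ := norm_add_le _ _
        _ ≤ (‖D t - a‖ + ‖a‖) + c := add_le_add (norm_le_norm_sub_add _ _) (h2 t)
        _ ≤ R + c + 1 := by linarith
    have h7 : ‖D t + δ m t‖ ^ 2 ≤ (R + c + 1) ^ 2 := pow_le_pow_left₀ (norm_nonneg _) h6 2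
    have h8 := sq_nonneg c
    linarith

lemma inner_le_weighted (x y : H) {μ : ℝ} (hμ : 0 < μ) :
    2 * ⟪x, y⟫ ≤ μ * ‖y‖ ^ 2 + (1 / μ) * ‖x‖ ^ 2 := by
  have h1 : ⟪x, y⟫ ≤ ‖x‖ * ‖y‖ := real_inner_le_norm _ _
  have h2 : 0 ≤ (1 / μ) * (‖x‖ - μ * ‖y‖) ^ 2 := by positivity
  have h3 : (1 / μ) * (‖x‖ - μ * ‖y‖) ^ 2 =
      (1 / μ) * ‖x‖ ^ 2 - 2 * (‖x‖ * ‖y‖) + μ * ‖y‖ ^ 2 := by
    field_simp
    ring
  linarith

lemma step_var {D : ℕ → H} {v M c c' : ℝ} (hD : VB D v) (hM : ∀ t, ‖D t‖ ≤ M) {δ : ℕ → ℕ → H}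
    (hδ : ∀ᶠ m in (U : Filter ℕ), VB (δ m) c)
    (hδ' : ∀ᶠ m in (U : Filter ℕ), ∀ t, ‖δ m t‖ ≤ c') (hw : ∀ t, WT (fun m => δ m t) 0)
    (hc' : 0 ≤ c') {ε : ℝ} (hε : 0 < ε) :
    ∀ᶠ m in (U : Filter ℕ), VB (fun t => D t + δ m t) (v + c + 8 * M * c' + ε) := by
  have hM0 : 0 ≤ M := (norm_nonneg _).trans (hM 0)
  have hc : 0 ≤ c := hδ.exists.choose_spec.nonneg
  set μ : ℝ := ε / (3 * (c + 1)) with hμ
  have hμ0 : 0 < μ := by positivity
  have hμc : μ * c ≤ ε / 3 := by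
    rw [hμ, div_mul_eq_mul_div, div_le_div_iff₀ (by positivity) (by norm_num)]
    nlinarith
  obtain ⟨T, hT⟩ := hD.tail (show 0 < μ * ε / 3 by positivity)
  set η : ℝ := ε / (24 * (T + 1)) with hη
  have hη0 : 0 < η := by positivity
  have hηT : 8 * η * T ≤ ε / 3 := by
    rw [hη, mul_div_assoc', div_mul_eq_mul_div, div_le_div_iff₀ (by positivity) (by norm_num)]
    nlinarith
  have h1 : ∀ᶠ m in (U : Filter ℕ), ∀ s ∈ Finset.range (T + 1), ∀ t ∈ Finset.range (T + 1),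
      |⟪D s, δ m t⟫| < η :=
    (Filter.eventually_all_finset _).2 fun s _ => (Filter.eventually_all_finset _).2 fun t _ =>
      (hw t).inner_small (D s) hη0
  filter_upwards [hδ, hδ', h1] with m hm hm' hm1
  intro p hp n
  -- the cross terms
  let u : ℕ → ℝ := fun s => if T ≤ s then 1 else 0
  let q : ℕ → ℕ := fun i => max (p i) T
  have hq : Monotone q := fun i j hij => max_le_max (hp hij) le_rfl
  have hu : ∀ i, 0 ≤ u (p (i + 1)) - u (p i) := by
    intro i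
    have h5 : p i ≤ p (i + 1) := hp (Nat.le_succ i)
    dsimp only [u]
    by_cases h6 : T ≤ p i
    · rw [if_pos h6, if_pos (h6.trans h5), sub_self]
    · rw [if_neg h6]
      split_ifs <;> norm_num
  have hmin : ∀ i, (0 : ℝ) ≤ (min (p (i + 1)) T : ℕ) - (min (p i) T : ℕ) := by
    intro i
    have h : min (p i) T ≤ min (p (i + 1)) T := min_le_min (hp (Nat.le_succ i)) le_rfl
    have h' : ((min (p i) T : ℕ) : ℝ) ≤ ((min (p (i + 1)) T : ℕ) : ℝ) := by exact_mod_cast h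
    linarith
  have key : ∀ i, 2 * ⟪D (p (i + 1)) - D (p i), δ m (p (i + 1)) - δ m (p i)⟫ ≤
      8 * η * ((min (p (i + 1)) T : ℕ) - (min (p i) T : ℕ)) + 8 * M * c' * (u (p (i + 1)) - u (p i))
      + (μ * ‖δ m (p (i + 1)) - δ m (p i)‖ ^ 2 + (1 / μ) * ‖D (q (i + 1)) - D (q i)‖ ^ 2) := by
    intro i
    have hpi : p i ≤ p (i + 1) := hp (Nat.le_succ i)
    have n1 : 0 ≤ 8 * η * (((min (p (i + 1)) T : ℕ) : ℝ) - (min (p i) T : ℕ)) :=
      mul_nonneg (by positivity) (hmin i)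
    have n2 : 0 ≤ 8 * M * c' * (u (p (i + 1)) - u (p i)) := mul_nonneg (by positivity) (hu i)
    have n3 : 0 ≤ μ * ‖δ m (p (i + 1)) - δ m (p i)‖ ^ 2 := by positivity
    have n4 : 0 ≤ (1 / μ) * ‖D (q (i + 1)) - D (q i)‖ ^ 2 := by positivity
    rcases le_or_gt T (p i) with hTi | hTi
    · -- both above `T`
      have e1 : q (i + 1) = p (i + 1) := max_eq_left (hTi.trans hpi)
      have e2 : q i = p i := max_eq_left hTi
      rw [e1, e2] at n4 ⊢
      have := inner_le_weighted (D (p (i + 1)) - D (p i)) (δ m (p (i + 1)) - δ m (p i)) hμ0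
      linarith
    · rcases le_or_gt (p (i + 1)) T with hTi' | hTi'
      · -- both at most `T`
        rcases eq_or_lt_of_le hpi with heq | hlt
        · rw [← heq, sub_self, inner_zero_left, mul_zero]
          rw [← heq] at n1 n2 n3
          have : q (i + 1) = q i := by dsimp only [q]; rw [heq]
          linarith
        · have e1 : (1 : ℝ) ≤ ((min (p (i + 1)) T : ℕ) : ℝ) - (min (p i) T : ℕ) := by
            rw [min_eq_left hTi', min_eq_left hTi.le]
            have : ((p i : ℕ) : ℝ) + 1 ≤ (p (i + 1) : ℕ) := by exact_mod_cast hlt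
            linarith
          have a1 := abs_lt.1 (hm1 (p (i + 1)) (Finset.mem_range.2 (by omega)) (p (i + 1))
            (Finset.mem_range.2 (by omega)))
          have a2 := abs_lt.1 (hm1 (p (i + 1)) (Finset.mem_range.2 (by omega)) (p i)
            (Finset.mem_range.2 (by omega)))
          have a3 := abs_lt.1 (hm1 (p i) (Finset.mem_range.2 (by omega)) (p (i + 1))
            (Finset.mem_range.2 (by omega)))
          have a4 := abs_lt.1 (hm1 (p i) (Finset.mem_range.2 (by omega)) (p i)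
            (Finset.mem_range.2 (by omega)))
          have e2 : ⟪D (p (i + 1)) - D (p i), δ m (p (i + 1)) - δ m (p i)⟫ ≤ 4 * η := by
            rw [inner_sub_left, inner_sub_right, inner_sub_right]
            linarith [a1.2, a2.1, a3.1, a4.2]
          nlinarith
      · -- crossing
        have e1 : u (p (i + 1)) - u (p i) = 1 := by
          dsimp only [u]
          rw [if_pos hTi'.le, if_neg (by omega)]
          norm_num
        rw [e1] at n2 ⊢
        have e2 : ⟪D (p (i + 1)) - D (p i), δ m (p (i + 1)) - δ m (p i)⟫ ≤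
            ‖D (p (i + 1)) - D (p i)‖ * ‖δ m (p (i + 1)) - δ m (p i)‖ := real_inner_le_norm _ _
        have e3 : ‖D (p (i + 1)) - D (p i)‖ ≤ 2 * M := by
          refine (norm_sub_le _ _).trans ?_
          linarith [hM (p (i + 1)), hM (p i)]
        have e4 : ‖δ m (p (i + 1)) - δ m (p i)‖ ≤ 2 * c' := by
          refine (norm_sub_le _ _).trans ?_
          linarith [hm' (p (i + 1)), hm' (p i)]
        have e5 : ‖D (p (i + 1)) - D (p i)‖ * ‖δ m (p (i + 1)) - δ m (p i)‖ ≤ 2 * M * (2 * c') :=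
          mul_le_mul e3 e4 (norm_nonneg _) (by positivity)
        linarith
  have hsum : var (fun t => D t + δ m t) p n = var D p n + var (δ m) p n +
      ∑ i ∈ Finset.range n, 2 * ⟪D (p (i + 1)) - D (p i), δ m (p (i + 1)) - δ m (p i)⟫ := by
    unfold var
    rw [← Finset.sum_add_distrib, ← Finset.sum_add_distrib]
    refine Finset.sum_congr rfl fun i _ => ?_
    have e : D (p (i + 1)) + δ m (p (i + 1)) - (D (p i) + δ m (p i)) =
        (D (p (i + 1)) - D (p i)) + (δ m (p (i + 1)) - δ m (p i)) := by abel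
    rw [e, norm_add_sq_real]
    ring
  have hbound : ∑ i ∈ Finset.range n, 2 * ⟪D (p (i + 1)) - D (p i), δ m (p (i + 1)) - δ m (p i)⟫ ≤
      8 * η * T + 8 * M * c' + (μ * c + (1 / μ) * (μ * ε / 3)) := by
    refine (Finset.sum_le_sum fun i _ => key i).trans ?_
    rw [Finset.sum_add_distrib, Finset.sum_add_distrib, Finset.sum_add_distrib, ← Finset.mul_sum,
      ← Finset.mul_sum, ← Finset.mul_sum, ← Finset.mul_sum,
      Finset.sum_range_sub (fun i => ((min (p i) T : ℕ) : ℝ)),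
      Finset.sum_range_sub (fun i => u (p i))]
    have b1 : ((min (p n) T : ℕ) : ℝ) - ((min (p 0) T : ℕ) : ℝ) ≤ T := by
      have h1 : ((min (p n) T : ℕ) : ℝ) ≤ T := by exact_mod_cast min_le_right _ _
      have h2 : (0 : ℝ) ≤ ((min (p 0) T : ℕ) : ℝ) := Nat.cast_nonneg _
      linarith
    have b2 : u (p n) - u (p 0) ≤ 1 := by
      dsimp only [u]
      split_ifs <;> norm_num
    have b3 : ∑ i ∈ Finset.range n, ‖δ m (p (i + 1)) - δ m (p i)‖ ^ 2 ≤ c := hm p hp n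
    have b4 : ∑ i ∈ Finset.range n, ‖D (q (i + 1)) - D (q i)‖ ^ 2 ≤ μ * ε / 3 :=
      hT q hq (le_max_right _ _) n
    have m1 := mul_le_mul_of_nonneg_left b1 (show 0 ≤ 8 * η by positivity)
    have m2 := mul_le_mul_of_nonneg_left b2 (show 0 ≤ 8 * M * c' by positivity)
    have m3 := mul_le_mul_of_nonneg_left b3 hμ0.le
    have m4 := mul_le_mul_of_nonneg_left b4 (show 0 ≤ 1 / μ by positivity)
    linarith
  have e6 : (1 / μ) * (μ * ε / 3) = ε / 3 := by field_simp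
  rw [e6] at hbound
  have h7 := hD p hp n
  have h8 := hm p hp n
  rw [hsum]
  linarith

end Pool.Agent.TH321.HJ
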