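import Mathlib
import Pool.Agent.TH321.HJ.Step

set_option autoImplicit false

/-!
Iterated weak limits and the concentration inequality.
-/

namespace Pool.Agent.TH321.HJ

open Filter Topology

open scoped RealInnerProductSpace

variable {H : Type} [NormedAddCommGroup H] [InnerProductSpace ℝ H] {ι : Type}

/-- the iterated weak limit over `r` further indices -/
noncomputable def WI (F : List ℕ → ι → H) : ℕ → List ℕ → ι → H
  | 0, s => F s
  | r + 1, s => fun t => wl fun m => WI F r (s ++ [m]) t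

/-- strictly increasing lists -/
abbrev pw (s : List ℕ) : Prop := s.Pairwise (· < ·)

lemma eventually_above (s : List ℕ) : ∀ᶠ m in (U : Filter ℕ), ∀ a ∈ s, a < m := by
  have h : ∀ᶠ m in (U : Filter ℕ), ∀ a ∈ s.toFinset, a < m :=
    (Filter.eventually_all_finset _).2 fun a _ => eventually_gt a
  filter_upwards [h] with m hm a ha
  exact hm a (List.mem_toFinset.2 ha)

lemma pw_snoc {s : List ℕ} (hs : pw s) {m : ℕ} (hm : ∀ a ∈ s, a < m) : pw (s ++ [m]) := by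
  rw [pw, List.pairwise_append]
  refine ⟨hs, List.pairwise_singleton _ _, fun a ha b hb => ?_⟩
  rw [List.mem_singleton.1 hb]
  exact hm a ha

/-- the predicate is closed under pointwise weak limits -/
def WClosed (P : (ι → H) → Prop) : Prop :=
  ∀ (D : ℕ → ι → H) (D0 : ι → H), (∀ t, WT (fun m => D m t) (D0 t)) →
    (∀ᶠ m in (U : Filter ℕ), P (D m)) → P D0

/-- changing one entry of an increasing list of length `N` changes `F` by something in `P` -/
def LipAt (F : List ℕ → ι → H) (N : ℕ) (P : (ι → H) → Prop) : Prop :=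
  ∀ (s w : List ℕ) (m m' : ℕ), s.length + 1 + w.length = N → pw (s ++ m :: w) →
    pw (s ++ m' :: w) → P fun t => F (s ++ m :: w) t - F (s ++ m' :: w) t

section

variable [CompleteSpace H] {F : List ℕ → ι → H} {C : ℝ}

lemma norm_WI (hC : 0 ≤ C) (hF : ∀ s t, ‖F s t‖ ≤ C) (r : ℕ) (s : List ℕ) (t : ι) :
    ‖WI F r s t‖ ≤ C := by
  induction r generalizing s with
  | zero => exact hF s t
  | succ r ih =>
    exact norm_le_of_WT (wl_spec _ C fun m => ih _) hC (Eventually.of_forall fun m => ih _)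

lemma WI_spec (hC : 0 ≤ C) (hF : ∀ s t, ‖F s t‖ ≤ C) (r : ℕ) (s : List ℕ) (t : ι) :
    WT (fun m => WI F r (s ++ [m]) t) (WI F (r + 1) s t) :=
  wl_spec _ C fun m => norm_WI hC hF r _ t

lemma WI_closed (hC : 0 ≤ C) (hF : ∀ s t, ‖F s t‖ ≤ C) {P : (ι → H) → Prop} (hP : WClosed P)
    (h : ∀ s, P (F s)) (r : ℕ) (s : List ℕ) : P (WI F r s) := by
  induction r generalizing s with
  | zero => exact h s
  | succ r ih =>
    exact hP (fun m => WI F r (s ++ [m])) _ (fun t => WI_spec hC hF r s t)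
      (Eventually.of_forall fun m => ih _)

lemma lip_WI (hC : 0 ≤ C) (hF : ∀ s t, ‖F s t‖ ≤ C) {P : (ι → H) → Prop} (hP : WClosed P)
    (r N : ℕ) (h : LipAt F (N + r) P) : LipAt (WI F r) N P := by
  induction r generalizing N with
  | zero => exact h
  | succ r ih =>
    have ih' := ih (N + 1) (by
      have e : N + 1 + r = N + (r + 1) := by omega
      rw [e]
      exact h)
    intro s w m m' hlen h1 h2
    refine hP (fun n t => WI F r ((s ++ m :: w) ++ [n]) t - WI F r ((s ++ m' :: w) ++ [n]) t) _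
      (fun t => (WI_spec hC hF r _ t).sub (WI_spec hC hF r _ t)) ?_
    filter_upwards [eventually_above (s ++ m :: w), eventually_above (s ++ m' :: w)] with n hn hn'
    have e1 : (s ++ m :: w) ++ [n] = s ++ m :: (w ++ [n]) := by simp
    have e2 : (s ++ m' :: w) ++ [n] = s ++ m' :: (w ++ [n]) := by simp
    have p1 := pw_snoc h1 hn
    have p2 := pw_snoc h2 hn'
    rw [e1] at p1 ⊢
    rw [e2] at p2 ⊢
    exact ih' s (w ++ [n]) m m' (by rw [List.length_append, List.length_singleton]; omega) p1 p2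

lemma delta_WI (hC : 0 ≤ C) (hF : ∀ s t, ‖F s t‖ ≤ C) {P : (ι → H) → Prop} (hP : WClosed P)
    (r N : ℕ) (h : LipAt F (N + 1 + r) P) (s : List ℕ) (hs : pw s) (hlen : s.length = N) :
    ∀ᶠ m in (U : Filter ℕ), P fun t => WI F r (s ++ [m]) t - WI F (r + 1) s t := by
  have h1 := lip_WI hC hF hP r (N + 1) h
  filter_upwards [eventually_above s] with m hm
  refine hP (fun m' t => WI F r (s ++ [m]) t - WI F r (s ++ [m']) t) _
    (fun t => (WT.const _).sub (WI_spec hC hF r s t)) ?_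
  filter_upwards [eventually_above s] with m' hm'
  exact h1 s [] m m' (by simp [hlen]) (pw_snoc hs hm) (pw_snoc hs hm')

lemma weak_WI (hC : 0 ≤ C) (hF : ∀ s t, ‖F s t‖ ≤ C) (r : ℕ) (s : List ℕ) (t : ι) :
    WT (fun m => WI F r (s ++ [m]) t - WI F (r + 1) s t) 0 :=
  (WI_spec hC hF r s t).sub_self

end

/-! ### closed predicates -/

lemma wclosed_VB (c : ℝ) : WClosed (fun D : ℕ → H => VB D c) :=
  fun _ _ h hc => VB_of_WT h hc

lemma wclosed_norm {c : ℝ} (hc0 : 0 ≤ c) : WClosed (fun D : ι → H => ∀ t, ‖D t‖ ≤ c) :=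
  fun _ _ h hc t => norm_le_of_WT (h t) hc0 (hc.mono fun _ hm => hm t)

lemma wclosed_zero (i : ι) : WClosed (fun D : ι → H => D i = 0) := by
  intro D D0 h hc
  have h1 := norm_le_of_WT (h i) le_rfl (hc.mono fun m hm => by
    show ‖D m i‖ ≤ 0
    rw [hm, norm_zero])
  exact norm_le_zero_iff.1 h1

lemma WT.neg {w : ℕ → H} {a : H} (h : WT w a) : WT (fun m => -w m) (-a) := fun x => by
  simp only [inner_neg_right]
  exact (h x).neg

lemma VB.neg {D : ℕ → H} {c : ℝ} (h : VB D c) : VB (fun t => -D t) c := by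
  intro p hp n
  refine le_of_eq_of_le ?_ (h p hp n)
  unfold var
  refine Finset.sum_congr rfl fun i _ => ?_
  rw [neg_sub_neg, norm_sub_rev]

/-! ### the main recursion -/

section main

variable [CompleteSpace H]

/-- the limit at infinity -/
noncomputable def aa (D : ℕ → H) : H := limUnder atTop D

lemma aa_spec {D : ℕ → H} {c : ℝ} (h : VB D c) : Tendsto D atTop (𝓝 (aa D)) := by
  obtain ⟨a, ha⟩ := h.exists_lim
  unfold aa
  rw [ha.limUnder_eq]
  exact ha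

/-- the limits at infinity of the iterated weak limits -/
noncomputable def Gf (F : List ℕ → ℕ → H) (r : ℕ) (s : List ℕ) (_ : Unit) : H := aa (WI F r s)

/-- The hypotheses on `F`. -/
structure Hyp (F : List ℕ → ℕ → H) (K : ℕ) (L C : ℝ) : Prop where
  L0 : 0 ≤ L
  C0 : 0 ≤ C
  zero : ∀ s, F s 0 = 0
  vb : ∀ s, VB (F s) (C ^ 2)
  lip : LipAt F K fun D => VB D (L ^ 2)

variable {F : List ℕ → ℕ → H} {K : ℕ} {L C : ℝ}

lemma Hyp.norm_le (h : Hyp F K L C) (s : List ℕ) (t : ℕ) : ‖F s t‖ ≤ C :=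
  (sq_le_sq₀ (norm_nonneg _) h.C0).1 ((h.vb s).norm_sq_le (h.zero s) t)

lemma Hyp.WI_vb (h : Hyp F K L C) (r : ℕ) (s : List ℕ) : VB (WI F r s) (C ^ 2) :=
  WI_closed h.C0 h.norm_le (wclosed_VB _) h.vb r s

lemma Hyp.WI_zero (h : Hyp F K L C) (r : ℕ) (s : List ℕ) : WI F r s 0 = 0 :=
  WI_closed h.C0 h.norm_le (wclosed_zero 0) h.zero r s

lemma Hyp.aa_WI (h : Hyp F K L C) (r : ℕ) (s : List ℕ) :
    Tendsto (WI F r s) atTop (𝓝 (aa (WI F r s))) :=
  aa_spec (h.WI_vb r s)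

lemma Hyp.norm_G (h : Hyp F K L C) (r : ℕ) (s : List ℕ) (t : Unit) : ‖Gf F r s t‖ ≤ C :=
  le_of_tendsto (h.aa_WI r s).norm
    (Eventually.of_forall fun t => norm_WI h.C0 h.norm_le r s t)

lemma Hyp.lip_G (h : Hyp F K L C) (r N : ℕ) (hN : N + r = K) :
    LipAt (Gf F r) N fun D : Unit → H => ∀ t, ‖D t‖ ≤ L := by
  intro s w m m' hlen h1 h2 _
  have h3 := lip_WI h.C0 h.norm_le (wclosed_VB _) r N (by rw [hN]; exact h.lip) s w m m' hlen h1 h2
  refine le_of_tendsto ((h.aa_WI r _).sub (h.aa_WI r _)).norm (Eventually.of_forall fun t => ?_)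
  refine (sq_le_sq₀ (norm_nonneg _) h.L0).1 (h3.norm_sq_le ?_ t)
  rw [h.WI_zero, h.WI_zero, sub_zero]

/-- The invariant. -/
structure Inv (F : List ℕ → ℕ → H) (L B c4 : ℝ) (i r : ℕ) (s t : List ℕ) : Prop where
  ls : s.length = i
  lt : t.length = i
  ps : pw s
  pt : pw t
  dj : ∀ a ∈ s, a ∉ t
  e : ∀ q r', q + r' = r →
    ‖WI (Gf F r') q s () - WI (Gf F r') q t ()‖ ^ 2 ≤ i * (2 * L ^ 2 + 1)
  sup : ∀ τ, ‖WI F r s τ - WI F r t τ‖ ^ 2 ≤ B + i * (2 * L ^ 2 + 1)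
  vb : VB (fun τ => WI F r s τ - WI F r t τ) (i * c4)

lemma step_one (h : Hyp F K L C) (i r : ℕ) (hir : i + 1 + r = K) (s t : List ℕ)
    (hs : s.length = i) (ps : pw s) {R B M v : ℝ} (D : ℕ → H)
    {a : H} (ha : Tendsto D atTop (𝓝 a)) (hR : ‖a‖ ≤ R) (hB : ∀ τ, ‖D τ‖ ^ 2 ≤ B)
    (hBR : (R + L + 1) ^ 2 ≤ B) (hM : ∀ τ, ‖D τ‖ ≤ M) (hv : VB D v) :
    ∀ᶠ m in (U : Filter ℕ),
      (∀ τ, ‖D τ + (WI F r (s ++ [m]) τ - WI F (r + 1) s τ)‖ ^ 2 ≤ B + L ^ 2 + 1 / 2) ∧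
      (∀ τ, ‖D τ - (WI F r (s ++ [m]) τ - WI F (r + 1) s τ)‖ ^ 2 ≤ B + L ^ 2 + 1 / 2) ∧
      VB (fun τ => D τ + (WI F r (s ++ [m]) τ - WI F (r + 1) s τ))
        (v + L ^ 2 + 8 * M * L + 1 / 2) ∧
      VB (fun τ => D τ - (WI F r (s ++ [m]) τ - WI F (r + 1) s τ))
        (v + L ^ 2 + 8 * M * L + 1 / 2) ∧
      pw (s ++ [m]) ∧ (∀ b ∈ s, b < m) ∧ (∀ b ∈ t, b < m) ∧
      VB (fun τ => WI F r (s ++ [m]) τ - WI F (r + 1) s τ) (L ^ 2) := by
  have hδ := delta_WI h.C0 h.norm_le (wclosed_VB _) r i (by rw [hir]; exact h.lip) s ps hs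
  have hδ' : ∀ᶠ m in (U : Filter ℕ), ∀ τ, ‖WI F r (s ++ [m]) τ - WI F (r + 1) s τ‖ ≤ L := by
    filter_upwards [hδ] with m hm τ
    refine (sq_le_sq₀ (norm_nonneg _) h.L0).1 (hm.norm_sq_le ?_ τ)
    rw [h.WI_zero, h.WI_zero, sub_zero]
  have hw : ∀ τ, WT (fun m => WI F r (s ++ [m]) τ - WI F (r + 1) s τ) 0 :=
    fun τ => weak_WI h.C0 h.norm_le r s τ
  have hw' : ∀ τ, WT (fun m => -(WI F r (s ++ [m]) τ - WI F (r + 1) s τ)) 0 := by
    intro τ
    have := (hw τ).neg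
    rwa [neg_zero] at this
  have hδn : ∀ᶠ m in (U : Filter ℕ),
      VB (fun τ => -(WI F r (s ++ [m]) τ - WI F (r + 1) s τ)) (L ^ 2) :=
    hδ.mono fun m hm => hm.neg
  have hδn' : ∀ᶠ m in (U : Filter ℕ), ∀ τ,
      ‖-(WI F r (s ++ [m]) τ - WI F (r + 1) s τ)‖ ≤ L :=
    hδ'.mono fun m hm τ => by rw [norm_neg]; exact hm τ
  filter_upwards [hδ, step_sup ha hR hB hBR hδ' hw one_half_pos,
    step_sup ha hR hB hBR hδn' hw' one_half_pos,
    step_var hv hM hδ hδ' hw h.L0 one_half_pos, step_var hv hM hδn hδn' hw' h.L0 one_half_pos,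
    eventually_above s, eventually_above t] with m h0 h1 h2 h3 h4 h5 h6
  refine ⟨h1, fun τ => ?_, h3, ?_, pw_snoc ps h5, h5, h6, h0⟩
  · rw [sub_eq_add_neg]
    exact h2 τ
  · simp only [sub_eq_add_neg (D _)]
    exact h4

lemma step_E (h : Hyp F K L C) (i q r' : ℕ) (hir : i + 1 + q + r' = K) (s : List ℕ)
    (hs : s.length = i) (ps : pw s) (v : H) :
    ∀ᶠ m in (U : Filter ℕ),
      ‖v + (WI (Gf F r') q (s ++ [m]) () - WI (Gf F r') (q + 1) s ())‖ ^ 2 ≤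
        ‖v‖ ^ 2 + L ^ 2 + 1 / 2 ∧
      ‖v - (WI (Gf F r') q (s ++ [m]) () - WI (Gf F r') (q + 1) s ())‖ ^ 2 ≤
        ‖v‖ ^ 2 + L ^ 2 + 1 / 2 := by
  have h1 := delta_WI h.C0 (h.norm_G r') (wclosed_norm h.L0) q i
    (h.lip_G r' (i + 1 + q) hir) s ps hs
  have h2 : ∀ᶠ m in (U : Filter ℕ),
      ‖WI (Gf F r') q (s ++ [m]) () - WI (Gf F r') (q + 1) s ()‖ ≤ L :=
    h1.mono fun m hm => hm ()
  have h3 := weak_WI h.C0 (h.norm_G r') q s ()
  have h4 := h3.neg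
  rw [neg_zero] at h4
  have h5 := step_hilb v h3 h2 one_half_pos
  have h6 := step_hilb v h4 (h2.mono fun m hm => by rw [norm_neg]; exact hm) one_half_pos
  filter_upwards [h5, h6] with m h7 h8
  refine ⟨h7, ?_⟩
  rw [sub_eq_add_neg]
  exact h8

end main

end Pool.Agent.TH321.HJ
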