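import Mathlib
import Pool.Agent.TH321.HJ.Iter

set_option autoImplicit false

/-!
The concentration inequality: two disjoint increasing lists with close values.
-/

namespace Pool.Agent.TH321.HJ

open Filter Topology

open scoped RealInnerProductSpace

variable {H : Type} [NormedAddCommGroup H] [InnerProductSpace ℝ H] [CompleteSpace H]
variable {F : List ℕ → ℕ → H} {K : ℕ} {L C : ℝ}

/-- the constants used in the recursion -/
structure Consts (K : ℕ) (L R B M c4 : ℝ) : Prop where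
  R0 : 0 ≤ R
  hR : (K : ℝ) * (2 * L ^ 2 + 1) ≤ R ^ 2
  hB : (R + 2 * L + 1) ^ 2 ≤ B
  M0 : 0 ≤ M
  hM : B + (K : ℝ) * (2 * L ^ 2 + 1) ≤ M ^ 2
  hc : 2 * L ^ 2 + 16 * (M + L) * L + 1 ≤ c4

lemma step_full (h : Hyp F K L C) {R B M c4 : ℝ} (hc : Consts K L R B M c4) (i r : ℕ)
    (hir : i + 1 + r = K) (s t : List ℕ) (hI : Inv F L B c4 i (r + 1) s t) :
    ∃ m n, Inv F L B c4 (i + 1) r (s ++ [m]) (t ++ [n]) := by
  have hL := h.L0
  have hiK : (i : ℝ) ≤ K := by
    have : i ≤ K := by omega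
    exact_mod_cast this
  have hi1K : ((i : ℝ) + 1) ≤ K := by
    have : i + 1 ≤ K := by omega
    exact_mod_cast this
  have hc2 : 0 ≤ 2 * L ^ 2 + 1 := by positivity
  -- first step
  have ha : Tendsto (fun τ => WI F (r + 1) s τ - WI F (r + 1) t τ) atTop
      (𝓝 (aa (WI F (r + 1) s) - aa (WI F (r + 1) t))) :=
    (h.aa_WI (r + 1) s).sub (h.aa_WI (r + 1) t)
  have hRa : ‖aa (WI F (r + 1) s) - aa (WI F (r + 1) t)‖ ≤ R := by
    have h1 := hI.e 0 (r + 1) (by omega)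
    have h2 : ‖aa (WI F (r + 1) s) - aa (WI F (r + 1) t)‖ ^ 2 ≤ i * (2 * L ^ 2 + 1) := h1
    refine (sq_le_sq₀ (norm_nonneg _) hc.R0).1 (h2.trans ((mul_le_mul_of_nonneg_right hiK hc2).trans
      hc.hR))
  have hBR : (R + L + 1) ^ 2 ≤ B + i * (2 * L ^ 2 + 1) := by
    have h1 : (R + L + 1) ^ 2 ≤ (R + 2 * L + 1) ^ 2 :=
      pow_le_pow_left₀ (by linarith [hc.R0]) (by linarith) 2
    have h2 : (0 : ℝ) ≤ i * (2 * L ^ 2 + 1) := by positivity
    linarith [hc.hB]
  have hM1 : ∀ τ, ‖WI F (r + 1) s τ - WI F (r + 1) t τ‖ ≤ M := fun τ => by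
    refine (sq_le_sq₀ (norm_nonneg _) hc.M0).1 ((hI.sup τ).trans ?_)
    have := mul_le_mul_of_nonneg_right hiK hc2
    linarith [hc.hM]
  have A1 := step_one h i r hir s t hI.ls hI.ps _ ha hRa hI.sup hBR hM1 hI.vb
  have A2 : ∀ᶠ m in (U : Filter ℕ), ∀ q ∈ Finset.range (r + 1),
      ‖(WI (Gf F (r - q)) (q + 1) s () - WI (Gf F (r - q)) (q + 1) t ()) +
        (WI (Gf F (r - q)) q (s ++ [m]) () - WI (Gf F (r - q)) (q + 1) s ())‖ ^ 2 ≤
        ‖WI (Gf F (r - q)) (q + 1) s () - WI (Gf F (r - q)) (q + 1) t ()‖ ^ 2 + L ^ 2 + 1 / 2 :=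
    (Filter.eventually_all_finset _).2 fun q hq => by
      have hq' := Finset.mem_range.1 hq
      exact (step_E h i q (r - q) (by omega) s hI.ls hI.ps _).mono fun m hm => hm.1
  obtain ⟨m, ⟨B1, -, B2, -, B3, B4, B5, B6⟩, B7⟩ := (A1.and A2).exists
  -- second step
  have haG : Tendsto (fun τ => WI F r (s ++ [m]) τ - WI F (r + 1) s τ) atTop
      (𝓝 (aa (WI F r (s ++ [m])) - aa (WI F (r + 1) s))) :=
    (h.aa_WI r (s ++ [m])).sub (h.aa_WI (r + 1) s)
  have hδL : ∀ τ, ‖WI F r (s ++ [m]) τ - WI F (r + 1) s τ‖ ≤ L := fun τ => by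
    refine (sq_le_sq₀ (norm_nonneg _) h.L0).1 (B6.norm_sq_le ?_ τ)
    rw [h.WI_zero, h.WI_zero, sub_zero]
  have hGL : ‖aa (WI F r (s ++ [m])) - aa (WI F (r + 1) s)‖ ≤ L :=
    le_of_tendsto haG.norm (Eventually.of_forall hδL)
  have haA := ha.add haG
  have hRA : ‖(aa (WI F (r + 1) s) - aa (WI F (r + 1) t)) +
      (aa (WI F r (s ++ [m])) - aa (WI F (r + 1) s))‖ ≤ R + L :=
    (norm_add_le _ _).trans (add_le_add hRa hGL)
  have hBR' : (R + L + L + 1) ^ 2 ≤ B + i * (2 * L ^ 2 + 1) + L ^ 2 + 1 / 2 := by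
    have h1 : (R + L + L + 1) ^ 2 = (R + 2 * L + 1) ^ 2 := by ring
    have h2 : (0 : ℝ) ≤ i * (2 * L ^ 2 + 1) := by positivity
    have h3 := sq_nonneg L
    linarith [hc.hB]
  have hMA : ∀ τ, ‖WI F (r + 1) s τ - WI F (r + 1) t τ +
      (WI F r (s ++ [m]) τ - WI F (r + 1) s τ)‖ ≤ M + L := fun τ =>
    (norm_add_le _ _).trans (add_le_add (hM1 τ) (hδL τ))
  have C1 := step_one h i r hir t (s ++ [m]) hI.lt hI.pt _ haA hRA B1 hBR' hMA B2
  have C2 : ∀ᶠ n in (U : Filter ℕ), ∀ q ∈ Finset.range (r + 1),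
      ‖((WI (Gf F (r - q)) (q + 1) s () - WI (Gf F (r - q)) (q + 1) t ()) +
        (WI (Gf F (r - q)) q (s ++ [m]) () - WI (Gf F (r - q)) (q + 1) s ())) -
        (WI (Gf F (r - q)) q (t ++ [n]) () - WI (Gf F (r - q)) (q + 1) t ())‖ ^ 2 ≤
        ‖(WI (Gf F (r - q)) (q + 1) s () - WI (Gf F (r - q)) (q + 1) t ()) +
        (WI (Gf F (r - q)) q (s ++ [m]) () - WI (Gf F (r - q)) (q + 1) s ())‖ ^ 2 +
          L ^ 2 + 1 / 2 :=
    (Filter.eventually_all_finset _).2 fun q hq => by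
      have hq' := Finset.mem_range.1 hq
      exact (step_E h i q (r - q) (by omega) t hI.lt hI.pt _).mono fun m hm => hm.2
  obtain ⟨n, ⟨-, D1, -, D2, D3, D4, D5, -⟩, D7⟩ := (C1.and C2).exists
  have hsm : ∀ τ, WI F (r + 1) s τ - WI F (r + 1) t τ +
      (WI F r (s ++ [m]) τ - WI F (r + 1) s τ) - (WI F r (t ++ [n]) τ - WI F (r + 1) t τ) =
      WI F r (s ++ [m]) τ - WI F r (t ++ [n]) τ := fun τ => by abel
  refine ⟨m, n, ⟨?_, ?_, B3, D3, ?_, ?_, ?_, ?_⟩⟩
  · rw [List.length_append, hI.ls, List.length_singleton]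
  · rw [List.length_append, hI.lt, List.length_singleton]
  · intro a ha' hat
    rw [List.mem_append, List.mem_singleton] at hat
    rcases hat with hat | hat
    · rw [List.mem_append, List.mem_singleton] at ha'
      rcases ha' with ha' | ha'
      · exact hI.dj a ha' hat
      · have := B5 a hat
        omega
    · have := D5 a ha'
      omega
  · intro q r' hqr
    have hr' : r' = r - q := by omega
    have h1 := B7 q (Finset.mem_range.2 (by omega))
    have h2 := D7 q (Finset.mem_range.2 (by omega))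
    have h3 := hI.e (q + 1) (r - q) (by omega)
    rw [hr']
    have h4 : ((WI (Gf F (r - q)) (q + 1) s () - WI (Gf F (r - q)) (q + 1) t ()) +
        (WI (Gf F (r - q)) q (s ++ [m]) () - WI (Gf F (r - q)) (q + 1) s ())) -
        (WI (Gf F (r - q)) q (t ++ [n]) () - WI (Gf F (r - q)) (q + 1) t ()) =
        WI (Gf F (r - q)) q (s ++ [m]) () - WI (Gf F (r - q)) q (t ++ [n]) () := by abel
    rw [h4] at h2
    push_cast
    linarith
  · intro τ
    have h1 := D1 τ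
    rw [hsm] at h1
    push_cast
    linarith
  · have h1 : (fun τ => WI F (r + 1) s τ - WI F (r + 1) t τ +
      (WI F r (s ++ [m]) τ - WI F (r + 1) s τ) - (WI F r (t ++ [n]) τ - WI F (r + 1) t τ)) =
      fun τ => WI F r (s ++ [m]) τ - WI F r (t ++ [n]) τ := funext hsm
    rw [h1] at D2
    refine D2.mono ?_
    have h2 := hc.hc
    have h3 := sq_nonneg L
    push_cast
    nlinarith

lemma all_steps (h : Hyp F K L C) {R B M c4 : ℝ} (hc : Consts K L R B M c4) (i r : ℕ)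
    (hir : i + r = K) : ∃ s t, Inv F L B c4 i r s t := by
  induction i generalizing r with
  | zero =>
    have hr : r = K := by omega
    refine ⟨[], [], ⟨rfl, rfl, List.Pairwise.nil, List.Pairwise.nil, ?_, ?_, ?_, ?_⟩⟩
    · intro a ha
      simp at ha
    · intro q r' _
      rw [_root_.sub_self]
      simp
    · intro τ
      rw [_root_.sub_self]
      have := hc.hB
      simp only [norm_zero, Nat.cast_zero, zero_mul, add_zero]
      nlinarith [sq_nonneg (R + 2 * L + 1)]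
    · intro p hp n
      simp [var]
  | succ i ih =>
    obtain ⟨s, t, hst⟩ := ih (r + 1) (by omega)
    obtain ⟨m, n, hmn⟩ := step_full h hc i r (by omega) s t hst
    exact ⟨_, _, hmn⟩

theorem conc (h : Hyp F K L C) {R B M c4 : ℝ} (hc : Consts K L R B M c4) :
    ∃ s t : List ℕ, s.length = K ∧ t.length = K ∧ pw s ∧ pw t ∧ (∀ a ∈ s, a ∉ t) ∧
      VB (fun τ => F s τ - F t τ) (K * c4) := by
  obtain ⟨s, t, hst⟩ := all_steps h hc K 0 (by omega)
  exact ⟨s, t, hst.ls, hst.lt, hst.ps, hst.pt, hst.dj, hst.vb⟩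

end Pool.Agent.TH321.HJ
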