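import Mathlib
import Pool.Agent.TH321.HJ.Weak

set_option autoImplicit false

/-!
The Hilbert-valued James space.
-/

namespace Pool.Agent.TH321.HJ

open Filter Topology

open scoped RealInnerProductSpace

/-- the index set of the sup -/
abbrev Ix : Type := {p : ℕ → ℕ // Monotone p} × ℕ

/-- the fibres -/
abbrev Ex (H : Type) (a : Ix) : Type := PiLp 2 (fun _ : Fin a.2 => H)

section

variable (H : Type) [NormedAddCommGroup H] [InnerProductSpace ℝ H]

/-- the ambient space -/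
abbrev Am : Type := lp (fun a : Ix => Ex H a) ⊤

/-- the index used for point evaluations -/
def qt (t : ℕ) : Ix := (⟨fun i => if i = 0 then 0 else t, by
  intro i j hij
  dsimp only
  split_ifs <;> omega⟩, 1)

/-- coordinates -/
noncomputable def co (a : Ix) (i : Fin a.2) : Am H →L[ℝ] H :=
  LinearMap.mkContinuous
    { toFun := fun v => (v : ∀ a, Ex H a) a i
      map_add' := fun _ _ => rfl
      map_smul' := fun _ _ => rfl } 1 (fun v => by
    rw [one_mul]
    exact (PiLp.norm_apply_le ((v : ∀ a, Ex H a) a) i).trans (lp.norm_apply_le_norm ENNReal.top_ne_zero v a))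

/-- point evaluations -/
noncomputable def ev0 (t : ℕ) : Am H →L[ℝ] H := co H (qt t) ⟨0, Nat.one_pos⟩

lemma norm_ev0_le (t : ℕ) (v : Am H) : ‖ev0 H t v‖ ≤ ‖v‖ :=
  (PiLp.norm_apply_le ((v : ∀ a, Ex H a) (qt t)) ⟨0, Nat.one_pos⟩).trans
    (lp.norm_apply_le_norm ENNReal.top_ne_zero v (qt t))

/-- the space of functions of bounded quadratic variation that vanish at `0` and at infinity -/
noncomputable def XJ : Submodule ℝ (Am H) where
  carrier := {v | (∀ a i, co H a i v = ev0 H (a.1.1 (i + 1)) v - ev0 H (a.1.1 i) v) ∧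
    Tendsto (fun t => ev0 H t v) atTop (𝓝 0)}
  add_mem' := by
    rintro v w ⟨h1, h2⟩ ⟨h3, h4⟩
    refine ⟨fun a i => ?_, ?_⟩
    · simp only [map_add]
      rw [h1, h3]
      abel
    · simp only [map_add]
      have := h2.add h4
      rwa [add_zero] at this
  zero_mem' := by
    refine ⟨fun a i => ?_, ?_⟩
    · simp only [map_zero, sub_zero]
    · simp only [map_zero]
      exact tendsto_const_nhds
  smul_mem' := by
    rintro c v ⟨h1, h2⟩
    refine ⟨fun a i => ?_, ?_⟩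
    · simp only [map_smul]
      rw [h1, smul_sub]
    · simp only [map_smul]
      have := h2.const_smul c
      rwa [smul_zero] at this

lemma isClosed_XJ : IsClosed (XJ H : Set (Am H)) := by
  refine isClosed_of_closure_subset fun v hv => ⟨fun a i => ?_, ?_⟩
  · have hc : IsClosed {v : Am H | co H a i v = ev0 H (a.1.1 (i + 1)) v - ev0 H (a.1.1 i) v} :=
      isClosed_eq (co H a i).continuous
        ((ev0 H (a.1.1 (i + 1))).continuous.sub (ev0 H (a.1.1 i)).continuous)
    exact closure_minimal (fun w hw => hw.1 a i) hc hv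
  · rw [Metric.tendsto_atTop]
    intro ε hε
    obtain ⟨w, hw, hvw⟩ := Metric.mem_closure_iff.1 hv (ε / 2) (half_pos hε)
    obtain ⟨T, hT⟩ := Metric.tendsto_atTop.1 hw.2 (ε / 2) (half_pos hε)
    refine ⟨T, fun t ht => ?_⟩
    have h1 := hT t ht
    rw [dist_zero_right] at h1 ⊢
    have h2 := norm_ev0_le H t (v - w)
    rw [map_sub] at h2
    rw [dist_eq_norm] at hvw
    calc ‖ev0 H t v‖ ≤ ‖ev0 H t v - ev0 H t w‖ + ‖ev0 H t w‖ := norm_le_norm_sub_add _ _
      _ < ε := by linarith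

variable {H}

/-- the space as a type of its own -/
def XT (H : Type) [NormedAddCommGroup H] [InnerProductSpace ℝ H] : Type := ↥(XJ H)

noncomputable instance instNAC : NormedAddCommGroup (XT H) :=
  inferInstanceAs (NormedAddCommGroup (XJ H))

noncomputable instance instNS : NormedSpace ℝ (XT H) := inferInstanceAs (NormedSpace ℝ (XJ H))

instance instCS [CompleteSpace H] : CompleteSpace (XT H) :=
  (isClosed_XJ H).completeSpace_coe

/-- the function of an element of the space -/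
noncomputable def evL (t : ℕ) : XT H →L[ℝ] H :=
  LinearMap.mkContinuous
    { toFun := fun v => ev0 H t v.1
      map_add' := fun v w => (ev0 H t).map_add v.1 w.1
      map_smul' := fun c v => (ev0 H t).map_smul c v.1 } 1 (fun v => by
    rw [one_mul]
    exact norm_ev0_le H t v.1)

/-- the function of an element of the space -/
noncomputable def ev (v : XT H) (t : ℕ) : H := evL t v

lemma ev_zero (v : XT H) : ev v 0 = 0 := by
  have h := v.2.1 (qt 0) ⟨0, Nat.one_pos⟩
  have h2 : ev0 H 0 v.1 = ev0 H 0 v.1 - ev0 H 0 v.1 := h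
  rw [sub_self] at h2
  exact h2

lemma ev_tendsto (v : XT H) : Tendsto (ev v) atTop (𝓝 0) := v.2.2

lemma ev_sub (v w : XT H) (t : ℕ) : ev (v - w) t = ev v t - ev w t := (evL t).map_sub v w

lemma ev_add (v w : XT H) (t : ℕ) : ev (v + w) t = ev v t + ev w t := (evL t).map_add v w

lemma ev_smul (c : ℝ) (v : XT H) (t : ℕ) : ev (c • v) t = c • ev v t := (evL t).map_smul c v

lemma var_eq (v : XT H) (a : Ix) : var (ev v) a.1.1 a.2 = ‖(v.1 : ∀ a, Ex H a) a‖ ^ 2 := by
  rw [PiLp.norm_sq_eq_of_L2]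
  unfold var
  rw [Finset.sum_range]
  refine Finset.sum_congr rfl fun i _ => ?_
  have h := v.2.1 a i
  have h2 : (v.1 : ∀ a, Ex H a) a i = ev v (a.1.1 (i + 1)) - ev v (a.1.1 i) := h
  rw [h2]

lemma VB_ev (v : XT H) {c : ℝ} (hc : ‖v‖ ≤ c) : VB (ev v) (c ^ 2) := by
  intro p hp n
  have h := var_eq v (⟨p, hp⟩, n)
  have h1 : var (ev v) p n = ‖(v.1 : ∀ a, Ex H a) (⟨p, hp⟩, n)‖ ^ 2 := h
  rw [h1]
  refine pow_le_pow_left₀ (norm_nonneg _) ?_ 2
  exact (lp.norm_apply_le_norm ENNReal.top_ne_zero v.1 _).trans hc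

lemma norm_le_of_VB (v : XT H) {c : ℝ} (hc0 : 0 ≤ c) (hc : VB (ev v) (c ^ 2)) : ‖v‖ ≤ c := by
  have h1 : ‖v.1‖ ≤ c := by
    refine lp.norm_le_of_forall_le hc0 fun a => ?_
    refine (sq_le_sq₀ (norm_nonneg _) hc0).1 ?_
    rw [← var_eq v a]
    exact hc a.1.1 a.1.2 a.2
  exact h1

/-- the family defined by a function -/
def fam (D : ℕ → H) (a : Ix) : Ex H a :=
  WithLp.toLp 2 fun i : Fin a.2 => D (a.1.1 (i + 1)) - D (a.1.1 i)

lemma norm_fam (D : ℕ → H) {c : ℝ} (hc0 : 0 ≤ c) (hc : VB D (c ^ 2)) (a : Ix) :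
    ‖fam D a‖ ≤ c := by
  refine (sq_le_sq₀ (norm_nonneg _) hc0).1 ?_
  rw [PiLp.norm_sq_eq_of_L2]
  have h := hc a.1.1 a.1.2 a.2
  unfold var at h
  rw [Finset.sum_range] at h
  exact h

/-- the element of the space defined by a function -/
noncomputable def mk (D : ℕ → H) {c : ℝ} (hc0 : 0 ≤ c) (hc : VB D (c ^ 2)) (h0 : D 0 = 0)
    (hl : Tendsto D atTop (𝓝 0)) : XT H :=
  ⟨⟨fam D, memℓp_infty ⟨c, by rintro _ ⟨a, rfl⟩; exact norm_fam D hc0 hc a⟩⟩, by
    have h1 : ∀ t, ev0 H t (⟨fam D, memℓp_infty ⟨c, by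
        rintro _ ⟨a, rfl⟩; exact norm_fam D hc0 hc a⟩⟩ : Am H) = D t := by
      intro t
      show D (if 0 + 1 = 0 then 0 else t) - D (if 0 = 0 then 0 else t) = D t
      rw [if_neg (by norm_num), if_pos rfl, h0, sub_zero]
    refine ⟨fun a i => ?_, ?_⟩
    · rw [h1, h1]
      rfl
    · simp only [h1]
      exact hl⟩

lemma ev_mk (D : ℕ → H) {c : ℝ} (hc0 : 0 ≤ c) (hc : VB D (c ^ 2)) (h0 : D 0 = 0)
    (hl : Tendsto D atTop (𝓝 0)) (t : ℕ) : ev (mk D hc0 hc h0 hl) t = D t := by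
  show D (if 0 + 1 = 0 then 0 else t) - D (if 0 = 0 then 0 else t) = D t
  rw [if_neg (by norm_num), if_pos rfl, h0, sub_zero]

lemma ev_ext {v w : XT H} (h : ∀ t, ev v t = ev w t) : v = w := by
  rw [← sub_eq_zero]
  have h1 : ‖v - w‖ ≤ 0 := by
    refine norm_le_of_VB (v - w) le_rfl fun p hp n => ?_
    unfold var
    refine le_of_eq ?_
    rw [zero_pow two_ne_zero]
    refine Finset.sum_eq_zero fun i _ => ?_
    rw [ev_sub, ev_sub, h, h, sub_self, sub_self, sub_self, norm_zero, zero_pow two_ne_zero]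
  exact norm_le_zero_iff.1 h1

/-- the step functions -/
def stp (h : H) (t τ : ℕ) : H := if 1 ≤ τ ∧ τ ≤ t then h else 0

lemma VB_stp (h : H) (t : ℕ) : VB (stp h t) ((2 * ‖h‖) ^ 2) := by
  intro p hp n
  let u : ℕ → ℝ := fun s => if 1 ≤ s then 1 else 0
  let w : ℕ → ℝ := fun s => if t < s then 1 else 0
  have key : ∀ i, ‖stp h t (p (i + 1)) - stp h t (p i)‖ ^ 2 ≤
      ‖h‖ ^ 2 * ((u (p (i + 1)) - u (p i)) + (w (p (i + 1)) - w (p i))) := by
    intro i
    have h1 : p i ≤ p (i + 1) := hp (Nat.le_succ i)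
    have h2 := sq_nonneg ‖h‖
    dsimp only [u, w, stp]
    by_cases a1 : 1 ≤ p i
    · have a2 : 1 ≤ p (i + 1) := a1.trans h1
      by_cases b1 : t < p i
      · have b2 : t < p (i + 1) := lt_of_lt_of_le b1 h1
        rw [if_neg (by omega), if_neg (by omega), if_pos a2, if_pos a1, if_pos b1, if_pos b2]
        simp
      · by_cases b2 : t < p (i + 1)
        · rw [if_neg (by omega), if_pos (by omega), if_pos a2, if_pos a1, if_neg b1, if_pos b2]
          simp
        · rw [if_pos (by omega), if_pos (by omega), if_pos a2, if_pos a1, if_neg b1, if_neg b2]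
          simp
    · by_cases a2 : 1 ≤ p (i + 1)
      · by_cases b2 : t < p (i + 1)
        · have b1 : ¬ (1 ≤ p i ∧ p i ≤ t) := by omega
          rw [if_neg (by omega), if_neg b1, if_pos a2, if_neg a1, if_pos b2]
          rw [sub_self, norm_zero, zero_pow two_ne_zero, sub_zero]
          refine mul_nonneg h2 ?_
          split_ifs <;> norm_num
        · rw [if_pos (by omega), if_neg (by omega), if_pos a2, if_neg a1, if_neg (by omega),
            if_neg (by omega)]
          simp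
      · rw [if_neg (by omega), if_neg (by omega), if_neg a2, if_neg a1]
        rw [sub_self, norm_zero, zero_pow two_ne_zero, sub_zero, zero_add]
        refine mul_nonneg h2 ?_
        split_ifs <;> first | omega | norm_num
  unfold var
  refine (Finset.sum_le_sum fun i _ => key i).trans ?_
  rw [← Finset.mul_sum, Finset.sum_add_distrib, Finset.sum_range_sub (fun i => u (p i)),
    Finset.sum_range_sub (fun i => w (p i))]
  have h1 : u (p n) - u (p 0) ≤ 1 := by
    dsimp only [u]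
    split_ifs <;> norm_num
  have h2 : w (p n) - w (p 0) ≤ 1 := by
    dsimp only [w]
    split_ifs <;> norm_num
  have h3 := sq_nonneg ‖h‖
  nlinarith

lemma stp_tendsto (h : H) (t : ℕ) : Tendsto (stp h t) atTop (𝓝 0) := by
  refine tendsto_const_nhds.congr' ?_
  filter_upwards [eventually_gt_atTop t] with τ hτ
  unfold stp
  rw [if_neg (by omega)]

/-- the generators -/
noncomputable def gg (h : H) (t : ℕ) : XT H :=
  mk (stp h t) (c := 2 * ‖h‖) (by positivity) (VB_stp h t) (by unfold stp; rw [if_neg (by omega)])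
    (stp_tendsto h t)

lemma ev_gg (h : H) (t τ : ℕ) : ev (gg h t) τ = stp h t τ := ev_mk _ _ _ _ _ _

lemma norm_gg (h : H) (t : ℕ) : ‖gg h t‖ ≤ 2 * ‖h‖ := by
  refine norm_le_of_VB _ (by positivity) ?_
  have : ev (gg h t) = stp h t := funext fun τ => ev_gg h t τ
  rw [this]
  exact VB_stp h t

lemma gg_add (h h' : H) (t : ℕ) : gg (h + h') t = gg h t + gg h' t := by
  refine ev_ext fun τ => ?_
  rw [ev_add, ev_gg, ev_gg, ev_gg]
  unfold stp
  split_ifs
  · rfl
  · rw [add_zero]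

lemma gg_smul (c : ℝ) (h : H) (t : ℕ) : gg (c • h) t = c • gg h t := by
  refine ev_ext fun τ => ?_
  rw [ev_smul, ev_gg, ev_gg]
  unfold stp
  split_ifs
  · rfl
  · rw [smul_zero]

/-- the ultrafilter limit of a bounded real sequence -/
noncomputable def ul (x : ℕ → ℝ) : ℝ := wl x

lemma ul_spec {x : ℕ → ℝ} {C : ℝ} (h : ∀ n, |x n| ≤ C) : Tendsto x U (𝓝 (ul x)) := by
  have h1 := wl_spec x C h 1
  have h2 : ∀ y : ℝ, ⟪(1 : ℝ), y⟫ = y := fun y => by
    simp [inner]
  simp only [h2] at h1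
  exact h1

lemma gbd (h : H) (φ : XT H →L[ℝ] ℝ) (t : ℕ) : |φ (gg h t)| ≤ ‖φ‖ * (2 * ‖h‖) := by
  have h1 : ‖φ (gg h t)‖ ≤ ‖φ‖ * ‖gg h t‖ := φ.le_opNorm _
  have h2 : ‖φ‖ * ‖gg h t‖ ≤ ‖φ‖ * (2 * ‖h‖) :=
    mul_le_mul_of_nonneg_left (norm_gg h t) (ContinuousLinearMap.opNorm_nonneg φ)
  exact h1.trans h2

/-- the elements of the bidual -/
noncomputable def Phi (h : H) : (XT H →L[ℝ] ℝ) →L[ℝ] ℝ :=
  LinearMap.mkContinuous
    { toFun := fun φ : XT H →L[ℝ] ℝ => ul fun t => φ (gg h t)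
      map_add' := fun φ ψ => by
        have h1 := (ul_spec (gbd h φ)).add (ul_spec (gbd h ψ))
        exact tendsto_nhds_unique (ul_spec (gbd h (φ + ψ))) h1
      map_smul' := fun c φ => by
        have h1 := (ul_spec (gbd h φ)).const_mul c
        exact tendsto_nhds_unique (ul_spec (gbd h (c • φ))) h1 } (2 * ‖h‖) (fun φ => by
    have h1 := (ul_spec (gbd h φ)).norm
    refine le_of_tendsto h1 (Eventually.of_forall fun t => (gbd h φ t).trans ?_)
    rw [mul_comm])

lemma Phi_spec (h : H) (φ : XT H →L[ℝ] ℝ) : Tendsto (fun t => φ (gg h t)) U (𝓝 (Phi h φ)) :=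
  ul_spec (gbd h φ)

/-- `Phi` as a linear map -/
noncomputable def PhiL : H →ₗ[ℝ] ((XT H →L[ℝ] ℝ) →L[ℝ] ℝ) where
  toFun := Phi
  map_add' := fun h h' => by
    ext φ
    have h1 := (Phi_spec h φ).add (Phi_spec h' φ)
    refine tendsto_nhds_unique (Phi_spec (h + h') φ) (h1.congr fun t => ?_)
    rw [gg_add, map_add]
  map_smul' := fun c h => by
    ext φ
    have h1 := (Phi_spec h φ).const_mul c
    refine tendsto_nhds_unique (Phi_spec (c • h) φ) (h1.congr fun t => ?_)
    rw [gg_smul, map_smul, smul_eq_mul]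

/-- evaluation functionals -/
noncomputable def evf (e : H) (t : ℕ) : XT H →L[ℝ] ℝ := (innerSL ℝ e).comp (evL t)

lemma evf_apply (e : H) (t : ℕ) (v : XT H) : evf e t v = ⟪e, ev v t⟫ := rfl

lemma Phi_inj (h : H) (x : XT H) (hx : ∀ φ : XT H →L[ℝ] ℝ, Phi h φ = φ x) : h = 0 := by
  have h1 : ∀ t, 1 ≤ t → ev x t = h := by
    intro t ht
    refine ext_inner_left ℝ fun e => ?_
    have h2 := hx (evf e t)
    rw [evf_apply] at h2
    rw [← h2]
    refine tendsto_nhds_unique (Phi_spec h (evf e t)) (tendsto_const_nhds.congr' ?_)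
    filter_upwards [eventually_gt t] with s hs
    rw [evf_apply, ev_gg]
    unfold stp
    rw [if_pos ⟨ht, hs.le⟩]
  have h2 : Tendsto (fun _ : ℕ => h) atTop (𝓝 0) := by
    refine (ev_tendsto x).congr' ?_
    filter_upwards [eventually_ge_atTop 1] with t ht
    exact h1 t ht
  exact tendsto_nhds_unique tendsto_const_nhds h2

lemma inf_dim_quot {V W : Type} [AddCommGroup V] [Module ℝ V] [AddCommGroup W] [Module ℝ W]
    (Φ : W →ₗ[ℝ] V) (R : Submodule ℝ V) (hinj : ∀ w, Φ w ∈ R → w = 0)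
    (hW : ¬ Module.Finite ℝ W) (s : Finset V) :
    ∃ φ, φ ∉ Submodule.span ℝ ((↑s : Set V) ∪ (R : Set V)) := by
  by_contra hcon
  push Not at hcon
  have h1 : (⊤ : Submodule ℝ V) = Submodule.span ℝ (↑s : Set V) ⊔ R := by
    refine le_antisymm (fun φ _ => ?_) le_top
    have h2 := hcon φ
    rw [Submodule.span_union, Submodule.span_eq] at h2
    exact h2
  have h4 : Submodule.map R.mkQ (Submodule.span ℝ (↑s : Set V)) = ⊤ := by
    have h5 : Submodule.map R.mkQ ⊤ = ⊤ := by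
      rw [Submodule.map_top, Submodule.range_mkQ]
    rw [h1, Submodule.map_sup] at h5
    have h6 : Submodule.map R.mkQ R = ⊥ := by
      rw [eq_bot_iff]
      rintro _ ⟨x, hx, rfl⟩
      rw [Submodule.mem_bot, Submodule.mkQ_apply, Submodule.Quotient.mk_eq_zero]
      exact hx
    rwa [h6, sup_bot_eq] at h5
  have h7 : Module.Finite ℝ (V ⧸ R) := by
    refine ⟨?_⟩
    rw [← h4]
    exact (Submodule.fg_span s.finite_toSet).map _
  have h8 : Function.Injective (R.mkQ.comp Φ) := by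
    refine (injective_iff_map_eq_zero _).2 fun h hh => ?_
    rw [LinearMap.comp_apply, Submodule.mkQ_apply, Submodule.Quotient.mk_eq_zero] at hh
    exact hinj h hh
  exact hW (Module.Finite.of_injective _ h8)

/-- the canonical image in the bidual -/
def canR (X : Type) [NormedAddCommGroup X] [NormedSpace ℝ X] :
    Submodule ℝ ((X →L[ℝ] ℝ) →L[ℝ] ℝ) where
  carrier := {ψ | ∃ x : X, ∀ g : X →L[ℝ] ℝ, ψ g = g x}
  add_mem' := by
    rintro ψ ψ' ⟨x, hx⟩ ⟨x', hx'⟩
    refine ⟨x + x', fun g => ?_⟩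
    rw [add_apply, hx, hx', map_add]
  zero_mem' := ⟨0, fun g => by rw [map_zero, zero_apply]⟩
  smul_mem' := by
    rintro c ψ ⟨x, hx⟩
    refine ⟨c • x, fun g => ?_⟩
    rw [smul_apply, hx, map_smul]

/-- `X**/X` is infinite-dimensional, in the form of the frozen statement -/
theorem nonqr (hH : ¬ Module.Finite ℝ H) (s : Finset ((XT H →L[ℝ] ℝ) →L[ℝ] ℝ)) :
    ∃ φ : (XT H →L[ℝ] ℝ) →L[ℝ] ℝ, φ ∉ Submodule.span ℝ
        ((↑s : Set ((XT H →L[ℝ] ℝ) →L[ℝ] ℝ)) ∪
          {ψ : (XT H →L[ℝ] ℝ) →L[ℝ] ℝ | ∃ x : XT H, ∀ g : XT H →L[ℝ] ℝ, ψ g = g x}) := by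
  have hinj : ∀ h, PhiL h ∈ canR (XT H) → h = 0 := by
    intro h hh
    obtain ⟨x, hx⟩ := hh
    exact Phi_inj h x hx
  have h := inf_dim_quot (V := (XT H →L[ℝ] ℝ) →L[ℝ] ℝ) (W := H) PhiL (canR (XT H)) hinj hH s
  exact h

end

end Pool.Agent.TH321.HJ
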