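import Mathlib
import Pool.Agent.TH321.HJ.Conc
import Pool.Agent.TH321.HJ.Space

set_option autoImplicit false

/-!
The contradiction: the Hilbert-valued James space does not contain the structures.
-/

namespace Pool.Agent.TH321.HJ

open Filter Topology

open scoped RealInnerProductSpace

/-- a list as a tuple -/
def xs (K : ℕ) (l : List ℕ) (i : Fin K) : ℕ := l.getD i 0

lemma xs_eq {K : ℕ} {l : List ℕ} (hlen : l.length = K) (i : Fin K) :
    xs K l i = l[i.val]'(by rw [hlen]; exact i.2) := by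
  unfold xs
  rw [List.getD_eq_getElem?_getD, List.getElem?_eq_getElem (by rw [hlen]; exact i.2)]
  rfl

lemma strictMono_xs {K : ℕ} {l : List ℕ} (hl : pw l) (hlen : l.length = K) :
    StrictMono (xs K l) := by
  intro i j hij
  rw [xs_eq hlen, xs_eq hlen]
  exact List.pairwise_iff_getElem.1 hl i.1 j.1 (by rw [hlen]; exact i.2) (by rw [hlen]; exact j.2)
    hij

lemma xs_mem {K : ℕ} {l : List ℕ} (hlen : l.length = K) (i : Fin K) : xs K l i ∈ l := by
  rw [xs_eq hlen]
  exact List.getElem_mem _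

lemma ham_xs {K : ℕ} (s w : List ℕ) (m m' : ℕ) (hlen : s.length + 1 + w.length = K) :
    hammingDist (xs K (s ++ m :: w)) (xs K (s ++ m' :: w)) ≤ 1 := by
  have key : ∀ i : Fin K, xs K (s ++ m :: w) i ≠ xs K (s ++ m' :: w) i → i.val = s.length := by
    intro i hi
    by_contra hne
    refine hi ?_
    unfold xs
    rw [List.getD_eq_getElem?_getD, List.getD_eq_getElem?_getD, List.getElem?_append,
      List.getElem?_append]
    rcases lt_or_gt_of_ne hne with h | h
    · rw [if_pos h, if_pos h]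
    · rw [if_neg (by omega), if_neg (by omega)]
      obtain ⟨j, hj⟩ : ∃ j, i.val - s.length = j + 1 := ⟨i.val - s.length - 1, by omega⟩
      rw [hj, List.getElem?_cons_succ, List.getElem?_cons_succ]
  unfold hammingDist
  refine Finset.card_le_one.2 fun i hi j hj => ?_
  have h1 := key i (Finset.mem_filter.1 hi).2
  have h2 := key j (Finset.mem_filter.1 hj).2
  exact Fin.ext (h1.trans h2.symm)

variable {H : Type} [NormedAddCommGroup H] [InnerProductSpace ℝ H] [CompleteSpace H]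

open Classical in
/-- the list version of a map on tuples -/
noncomputable def Fl {K : ℕ} (f : (Fin K → ℕ) → XT H) (x0 : Fin K → ℕ) (l : List ℕ) (τ : ℕ) : H :=
  if pw l ∧ l.length = K then ev (f (xs K l) - f x0) τ else 0

lemma hyp_Fl {K : ℕ} (f : (Fin K → ℕ) → XT H) {L : ℝ} (hL : 0 ≤ L)
    (hf : ∀ x y : Fin K → ℕ, StrictMono x → StrictMono y →
      ‖f x - f y‖ ≤ L * (hammingDist x y : ℝ)) {x0 : Fin K → ℕ} (hx0 : StrictMono x0) :
    Hyp (Fl f x0) K L (L * K) := by
  have hC : 0 ≤ L * K := by positivity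
  refine ⟨hL, hC, ?_, ?_, ?_⟩
  · intro s
    unfold Fl
    split_ifs
    · exact ev_zero _
    · rfl
  · intro s
    unfold Fl
    split_ifs with h
    · refine VB_ev _ ((hf _ _ (strictMono_xs h.1 h.2) hx0).trans ?_)
      refine mul_le_mul_of_nonneg_left ?_ hL
      have h1 : hammingDist (xs K s) x0 ≤ Fintype.card (Fin K) := hammingDist_le_card_fintype
      rw [Fintype.card_fin] at h1
      exact_mod_cast h1
    · intro p hp n
      simp only [var, sub_self, norm_zero]
      rw [Finset.sum_eq_zero fun i _ => by rw [zero_pow two_ne_zero]]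
      positivity
  · intro s w m m' hlen h1 h2
    have l1 : (s ++ m :: w).length = K := by
      rw [List.length_append, List.length_cons]
      omega
    have l2 : (s ++ m' :: w).length = K := by
      rw [List.length_append, List.length_cons]
      omega
    have h3 : ‖f (xs K (s ++ m :: w)) - f (xs K (s ++ m' :: w))‖ ≤ L := by
      refine (hf _ _ (strictMono_xs h1 l1) (strictMono_xs h2 l2)).trans ?_
      have h4 : ((hammingDist (xs K (s ++ m :: w)) (xs K (s ++ m' :: w)) : ℕ) : ℝ) ≤ 1 := by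
        exact_mod_cast ham_xs s w m m' hlen
      calc L * _ ≤ L * 1 := mul_le_mul_of_nonneg_left h4 hL
        _ = L := mul_one L
    have h5 := VB_ev _ h3
    have h6 : (fun t => Fl f x0 (s ++ m :: w) t - Fl f x0 (s ++ m' :: w) t) =
        ev (f (xs K (s ++ m :: w)) - f (xs K (s ++ m' :: w))) := by
      funext t
      unfold Fl
      rw [if_pos ⟨h1, l1⟩, if_pos ⟨h2, l2⟩, ev_sub, ev_sub, ev_sub]
      abel
    rw [h6]
    exact h5

theorem contra (ℓ : ℕ) (hℓ : 1 ≤ ℓ) (L : ℝ) (hL : 0 < L)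
    (hf : ∀ k : ℕ, ∃ f : (Fin (ℓ * k) → ℕ) → XT H,
      ∀ x y : Fin (ℓ * k) → ℕ, StrictMono x → StrictMono y →
        ((symmDiff ((Finset.univ.filter (fun i : Fin (ℓ * k) => i.val < k)).image x)
            ((Finset.univ.filter (fun i : Fin (ℓ * k) => i.val < k)).image y)).card : ℝ) / 2
          ≤ ‖f x - f y‖ ∧
        ‖f x - f y‖ ≤ L * (hammingDist x y : ℝ)) : False := by
  set c2 : ℝ := 2 * L ^ 2 + 1 with hc2
  have hc20 : 0 < c2 := by positivity
  set ρ : ℝ := Real.sqrt (ℓ * c2) with hρ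
  have hρ0 : 0 ≤ ρ := Real.sqrt_nonneg _
  have hρ2 : ρ ^ 2 = ℓ * c2 := Real.sq_sqrt (by positivity)
  have hℓ0 : (0 : ℝ) < ℓ := by exact_mod_cast hℓ
  obtain ⟨N, hN⟩ := exists_nat_gt (32 * ℓ * L * ρ + ℓ * (50 * L ^ 2 + 16 * L + 1) + 1)
  have hN1 : (1 : ℝ) < N := by
    have : 0 ≤ 32 * ℓ * L * ρ := by positivity
    have : 0 ≤ ℓ * (50 * L ^ 2 + 16 * L + 1) := by positivity
    linarith
  obtain ⟨k, hk⟩ : ∃ k : ℕ, k = N ^ 2 := ⟨_, rfl⟩
  obtain ⟨K, hK⟩ : ∃ K : ℕ, K = ℓ * k := ⟨_, rfl⟩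
  have hf1 := hf k
  rw [← hK] at hf1
  obtain ⟨f, hf⟩ := hf1
  have hkK : k ≤ K := by
    rw [hK]
    exact Nat.le_mul_of_pos_left k hℓ
  have hx0 : StrictMono (fun i : Fin K => i.val) := fun i j hij => hij
  have hH := hyp_Fl f hL.le (fun x y hx hy => (hf x y hx hy).2) hx0
  -- the constants
  set R : ℝ := N * ρ with hR
  have hR0 : 0 ≤ R := by positivity
  have hKr : (K : ℝ) = ℓ * N ^ 2 := by
    rw [hK, hk]
    push_cast
    ring
  have hR2 : R ^ 2 = K * c2 := by
    rw [hR, mul_pow, hρ2, hKr]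
    ring
  set M : ℝ := 2 * R + 2 * L + 1 with hM
  have hM0 : 0 ≤ M := by positivity
  set c4 : ℝ := 2 * L ^ 2 + 16 * (M + L) * L + 1 with hc4
  have hconst : Consts K L R ((R + 2 * L + 1) ^ 2) M c4 := by
    refine ⟨hR0, hR2.ge, le_rfl, hM0, ?_, le_rfl⟩
    rw [← hc2, ← hR2, hM]
    nlinarith [mul_nonneg hR0 hL.le, sq_nonneg R]
  obtain ⟨s, t, hs, ht, ps, pt, hdj, hvb⟩ := conc hH hconst
  have hxs := strictMono_xs ps hs
  have hxt := strictMono_xs pt ht
  have hc40 : 0 ≤ c4 := by positivity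
  -- upper bound
  have hup : ‖f (xs K s) - f (xs K t)‖ ≤ Real.sqrt (K * c4) := by
    refine norm_le_of_VB _ (Real.sqrt_nonneg _) ?_
    rw [Real.sq_sqrt (by positivity)]
    have h6 : (fun τ => Fl f (fun i : Fin K => i.val) s τ - Fl f (fun i : Fin K => i.val) t τ) =
        ev (f (xs K s) - f (xs K t)) := by
      funext τ
      unfold Fl
      rw [if_pos ⟨ps, hs⟩, if_pos ⟨pt, ht⟩, ev_sub, ev_sub, ev_sub]
      abel
    rw [← h6]
    exact hvb
  -- lower bound
  have hlow := (hf (xs K s) (xs K t) hxs hxt).1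
  have hcard : (symmDiff ((Finset.univ.filter (fun i : Fin K => i.val < k)).image (xs K s))
      ((Finset.univ.filter (fun i : Fin K => i.val < k)).image (xs K t))).card = 2 * k := by
    have hd : Disjoint ((Finset.univ.filter (fun i : Fin K => i.val < k)).image (xs K s))
        ((Finset.univ.filter (fun i : Fin K => i.val < k)).image (xs K t)) := by
      rw [Finset.disjoint_left]
      intro a ha hb
      obtain ⟨i, -, rfl⟩ := Finset.mem_image.1 ha
      obtain ⟨j, -, hj⟩ := Finset.mem_image.1 hb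
      refine hdj _ (xs_mem hs i) ?_
      rw [← hj]
      exact xs_mem ht j
    rw [Finset.symmDiff_eq_union hd, Finset.card_union_of_disjoint hd,
      Finset.card_image_of_injective _ hxs.injective, Finset.card_image_of_injective _ hxt.injective,
      Fin.card_filter_val_lt, min_eq_right hkK]
    ring
  rw [hcard] at hlow
  have h1 : (k : ℝ) ≤ Real.sqrt (K * c4) := by
    refine le_trans ?_ (hlow.trans hup)
    push_cast
    linarith
  have h2 : (k : ℝ) ^ 2 ≤ K * c4 := by
    have h3 := pow_le_pow_left₀ (Nat.cast_nonneg k) h1 2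
    rwa [Real.sq_sqrt (by positivity)] at h3
  have hkr : (k : ℝ) = N ^ 2 := by
    rw [hk]
    push_cast
    ring
  rw [hkr, hKr] at h2
  have hN2 : (0 : ℝ) < (N : ℝ) ^ 2 := by positivity
  have h3 : (N : ℝ) ^ 2 ≤ ℓ * c4 := by
    have h4 : (N : ℝ) ^ 2 * (N : ℝ) ^ 2 ≤ (N : ℝ) ^ 2 * (ℓ * c4) := by linarith
    exact le_of_mul_le_mul_left h4 hN2
  have h5 : ℓ * c4 = (32 * ℓ * L * ρ) * N + ℓ * (50 * L ^ 2 + 16 * L + 1) := by
    rw [hc4, hM, hR]
    ring
  rw [h5] at h3
  have h6 : 0 ≤ 32 * ℓ * L * ρ := by positivity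
  have h7 : 0 ≤ ℓ * (50 * L ^ 2 + 16 * L + 1) := by positivity
  nlinarith

end Pool.Agent.TH321.HJ
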